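import Pool.Agent.V11196.FCQ.Union

/-!
The class of languages of FC[REG] conjunctive queries is closed under finite union, i.e. it
coincides with the class of languages of FC[REG] unions of conjunctive queries.
-/

namespace Pool.Agent.Results.MP_c07d1e_lc.UnionClosed

open Pool.Agent.V11196.FCQ

/-- The class of languages of FC[REG] conjunctive queries over the alphabet `α`. -/
def CQLanguages (α : Type) : Set (Language α) := {L | ∃ φ : CQ α, lang φ = L}

/-- The class of languages of finite nonempty disjunctions of FC[REG] conjunctive queries. -/
def UCQLanguages (α : Type) : Set (Language α) :=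
  {L | ∃ Φ : List (CQ α), Φ ≠ [] ∧ ulang Φ = L}

/-- For every finite alphabet with at least two letters, every union of FC[REG] conjunctive
queries is equivalent to a single FC[REG] conjunctive query. -/
theorem result (α : Type) [Finite α] [Nontrivial α] : CQLanguages α = UCQLanguages α := by
  ext L
  constructor
  · rintro ⟨φ, rfl⟩
    refine ⟨[φ], by simp, ?_⟩
    ext w
    show (∃ ψ ∈ [φ], Accepts ψ w) ↔ Accepts φ w
    simp
  · rintro ⟨Φ, -, rfl⟩
    obtain ⟨φ, hφ⟩ := finite_union Φ
    refine ⟨φ, ?_⟩
    ext w
    exact hφ w

end Pool.Agent.Results.MP_c07d1e_lc.UnionClosed
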